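import Pool.Agent.H929.KC.StmC

/-!
# Project KC (helper929): (NDG) and (DUALC)
-/

set_option autoImplicit false

namespace Pool.Agent.H894.KC

open MvPolynomial Pool.Agent.W607 Pool.Agent.Y807.BD Pool.Agent.H929.KC

/-- derivations separating `p` and `q` show that they are algebraically independent -/
theorem algInd_of_der {k : Subfield ℂ} (x : Fin (1 + 1) → ℂ)
    (h : ∀ i, ∃ D : Derivation k ℂ ℂ, ∀ j, D (x j) = if j = i then 1 else 0) :
    AlgebraicIndependent k x := by
  classical
  have hae : ∀ f : MvPolynomial (Fin (1 + 1)) k, aeval x f = eval x (f.map (algebraMap k ℂ)) := by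
    intro f
    rw [aeval_def, eval₂_eq_eval_map]
  have key : ∀ n : ℕ, ∀ f : MvPolynomial (Fin (1 + 1)) k,
      (∀ m : Fin (1 + 1) →₀ ℕ, n ≤ m.degree → coeff m f = 0) →
      aeval x f = 0 → f = 0 := by
    intro n
    induction n with
    | zero =>
      intro f hf _
      ext m
      rw [hf m (Nat.zero_le _), coeff_zero]
    | succ n ih =>
      intro f hf h0
      have h1 : ∀ i, pderiv i f = 0 := by
        intro i
        apply ih
        · intro m hm
          rw [coeff_pderiv, hf _ (by rw [map_add, Finsupp.degree_single]; omega), zero_mul]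
        · obtain ⟨D, hD⟩ := h i
          have h2 : D (aeval x f) = ∑ j, aeval x (pderiv j f) * D (x j) := by
            rw [hae, Pool.Agent.Y179.BD.der_eval D f x]
            refine Finset.sum_congr rfl fun j _ => ?_
            rw [hae, ← pderiv_map]
            rfl
          rw [h0, map_zero] at h2
          simp only [hD, mul_ite, mul_one, mul_zero, Finset.sum_ite_eq', Finset.mem_univ,
            if_true] at h2
          exact h2.symm
      have h3 : ∀ m : Fin (1 + 1) →₀ ℕ, m ≠ 0 → coeff m f = 0 := by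
        intro m hm
        obtain ⟨i, hi⟩ : ∃ i, m i ≠ 0 := by
          by_contra hcon
          push Not at hcon
          exact hm (Finsupp.ext hcon)
        have h4 := coeff_pderiv (i := i) f (m - Finsupp.single i 1)
        rw [h1 i, coeff_zero] at h4
        have h5 : m - Finsupp.single i 1 + Finsupp.single i 1 = m := by
          apply tsub_add_cancel_of_le
          rw [Finsupp.single_le_iff]
          omega
        rw [h5] at h4
        have h6 : ((((m - Finsupp.single i 1 : Fin (1 + 1) →₀ ℕ) i : ℕ) : k) + 1) ≠ 0 :=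
          Nat.cast_add_one_ne_zero _
        exact (mul_eq_zero.1 h4.symm).resolve_right h6
      have h7 : f = C (coeff 0 f) := by
        apply MvPolynomial.ext
        intro m
        rw [coeff_C]
        split_ifs with hm
        · rw [hm]
        · exact h3 m (fun h => hm h.symm)
      rw [h7, aeval_C] at h0
      rw [h7, (map_eq_zero _).1 h0, C_0]
  rw [algebraicIndependent_iff]
  intro f hf
  refine key (f.totalDegree + 1) f ?_ hf
  intro m hm
  by_contra hcon
  have h1 := le_totalDegree (mem_support_iff.2 hcon)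
  rw [Finsupp.degree_apply] at hm
  have h2 : (m.sum fun _ e => e) = ∑ i ∈ m.support, m i := rfl
  omega

/-- the library's structure of generic points -/
theorem gen_of {k : Subfield ℂ} {G : RR 3} {D : ℕ} {G₀ : MvPolynomial (Fin 4) k}
    {ω : Fin 4 → ℂ} {s : Fin 1 → ℂ} (h : GenC k G D G₀ ω s) :
    Gen (N := 3) k (Ideal.span {G}) (fun _ : Fin 1 => G₀) ω Fin.castSucc s :=
  { gens := by
      congr 1
      ext f
      simp only [Set.mem_singleton_iff, Set.mem_range]
      constructor
      · rintro rfl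
        exact ⟨0, h.map⟩
      · rintro ⟨_, rfl⟩
        exact h.map
    hom := fun _ => ⟨D, by rw [h.map]; exact h.hom⟩
    zero := by
      intro f hf
      obtain ⟨g, rfl⟩ := Ideal.mem_span_singleton'.1 hf
      rw [map_mul, h.zero, mul_zero]
    ind := h.ind }

theorem finrank_tan {G : RR 3} {ω : Fin (3 + 1) → ℂ} (h0 : eval ω G = 0)
    (h3 : eval ω (pderiv 3 G) ≠ 0) : Module.finrank ℂ (Tan (Ideal.span {G}) ω) = 3 := by
  set φ : (Fin (3 + 1) → ℂ) →ₗ[ℂ] ℂ :=
    { toFun := fun y => ∑ i, grd G ω i * y i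
      map_add' := fun a b => by simp only [Pi.add_apply, mul_add, Finset.sum_add_distrib]
      map_smul' := fun c a => by
        simp only [Pi.smul_apply, smul_eq_mul, RingHom.id_apply, Finset.mul_sum]
        exact Finset.sum_congr rfl fun i _ => by ring } with hφ
  have h1 : Tan (Ideal.span {G}) ω = LinearMap.ker φ := by
    ext y
    rw [tan_span h0, LinearMap.mem_ker]
    rfl
  have h2 : Function.Surjective φ := by
    intro c
    refine ⟨Pi.single 3 (c / grd G ω 3), ?_⟩
    change ∑ j, grd G ω j * (Pi.single 3 (c / grd G ω 3) : Fin (3 + 1) → ℂ) j = c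
    rw [Finset.sum_eq_single 3]
    · rw [Pi.single_eq_same]
      have : grd G ω 3 ≠ 0 := h3
      field_simp
    · intro j _ hj
      rw [Pi.single_eq_of_ne hj, mul_zero]
    · intro h
      exact absurd (Finset.mem_univ _) h
  have h4 := LinearMap.finrank_range_add_finrank_ker φ
  rw [LinearMap.range_eq_top.2 h2, finrank_top, Module.finrank_self, Module.finrank_fin_fun] at h4
  rw [h1]
  omega

theorem ω_ne {k : Subfield ℂ} {G : RR 3} {D : ℕ} {G₀ : MvPolynomial (Fin 4) k}
    {ω : Fin 4 → ℂ} {s : Fin 1 → ℂ} (h : GenC k G D G₀ ω s) : ω 0 ≠ 0 :=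
  h.ind.ne_zero (Sum.inl 0)

theorem t_NDG : S_NDG := by
  intro k G D G₀ ω s h hNL
  have hg := gen_of h
  have hT := finrank_tan h.zero h.der
  have hnd : ∀ y ∈ Tan (Ideal.span {G}) ω, (∀ z ∈ Tan (Ideal.span {G}) ω, hes G ω y z = 0) →
      ∃ c : ℂ, y = c • ω := by
    intro y hy hz
    by_contra hc
    exact Pool.Agent.Y179.BD.t_ND2 3 k _ 1 _ ω _ s hg hT y hy hc
      (fun _ z hzT => by rw [h.map]; exact hz z hzT) hNL
  refine ⟨((Pool.Agent.Y977.BD.t_TAN 3 _ ω hg.zero).1).2 hT, hnd, ?_⟩
  refine Pool.Agent.Y689.BD.t_NODE 3 _ _ G ω (hmg_span h.hom) (Ideal.mem_span_singleton_self G)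
    ?_ ?_ hg.zero hT hnd
  · have := (isHomogeneous_C (Fin (3 + 1)) ((ω 0)⁻¹)).mul (isHomogeneous_X ℂ (0 : Fin (3 + 1)))
    simpa using this
  · rw [map_mul, eval_C, eval_X]
    exact inv_mul_cancel₀ (ω_ne h)

/-- `z ↦ ∂_j G (ω)` differentiated along `y` -/
noncomputable def dg (G : RR 3) (ω y : Fin (3 + 1) → ℂ) (j : Fin (3 + 1)) : ℂ :=
  ∑ i, eval ω (pderiv i (pderiv j G)) * y i

theorem hes_dg (G : RR 3) (ω y z : Fin (3 + 1) → ℂ) : hes G ω y z = ∑ j, dg G ω y j * z j := by
  unfold hes dg
  rw [Finset.sum_comm]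
  refine Finset.sum_congr rfl fun j _ => ?_
  rw [Finset.sum_mul]

/-- the tangent plane as a function of the tangent vector -/
noncomputable def TT (G : RR 3) (ω : Fin (3 + 1) → ℂ) :
    (Fin (3 + 1) → ℂ) →ₗ[ℂ] (Fin (1 + 1) → ℂ) where
  toFun y := fun i => (dg G ω y (i.succ.castLE (by omega)) * grd G ω 3 -
    grd G ω (i.succ.castLE (by omega)) * dg G ω y 3) / (grd G ω 3) ^ 2
  map_add' a b := by
    ext i
    simp only [dg, Pi.add_apply, mul_add, Finset.sum_add_distrib]
    ring
  map_smul' c a := by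
    have h : ∀ j, dg G ω (c • a) j = c * dg G ω a j := by
      intro j
      simp only [dg, Pi.smul_apply, smul_eq_mul, Finset.mul_sum]
      exact Finset.sum_congr rfl fun i _ => by ring
    ext i
    simp only [h, Pi.smul_apply, smul_eq_mul, RingHom.id_apply]
    ring

theorem t_DUALC : S_DUALC := by
  intro k G D G₀ ω s h hnd
  have hg := gen_of h
  have hT := finrank_tan h.zero h.der
  have h3 : grd G ω 3 ≠ 0 := h.der
  have hω := ω_ne h
  -- the kernel
  have hker : ∀ y ∈ Tan (Ideal.span {G}) ω, TT G ω y = 0 → ∃ c : ℂ, y = c • ω := by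
    intro y hy hTy
    have hp : dg G ω y 1 * grd G ω 3 - grd G ω 1 * dg G ω y 3 = 0 := by
      have := congrFun hTy 0
      simp only [TT, LinearMap.coe_mk, AddHom.coe_mk, Pi.zero_apply] at this
      exact (div_eq_zero_iff.1 this).resolve_right (pow_ne_zero 2 h3)
    have hq : dg G ω y 2 * grd G ω 3 - grd G ω 2 * dg G ω y 3 = 0 := by
      have := congrFun hTy 1
      simp only [TT, LinearMap.coe_mk, AddHom.coe_mk, Pi.zero_apply] at this
      exact (div_eq_zero_iff.1 this).resolve_right (pow_ne_zero 2 h3)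
    have htan : ∀ z ∈ Tan (Ideal.span {G}) ω, ∑ i, grd G ω i * z i = 0 :=
      fun z hz => (tan_span h.zero z).1 hz
    have hE1 : ∑ i, grd G ω i * ω i = 0 := by
      have := Pool.Agent.Y689.BD.euler1 (N := 3) h.hom ω
      rw [h.zero, mul_zero] at this
      exact this
    have hE2 : hes G ω y ω = 0 := by
      rw [Pool.Agent.Y689.BD.hes_symm, Pool.Agent.Y689.BD.euler2 (N := 3) h.hom ω y, htan y hy,
        mul_zero]
    rw [hes_dg] at hE2
    rw [Fin.sum_univ_four] at hE2 hE1
    have hr : dg G ω y 0 * grd G ω 3 - grd G ω 0 * dg G ω y 3 = 0 := by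
      have h5 : (dg G ω y 0 * grd G ω 3 - grd G ω 0 * dg G ω y 3) * ω 0 = 0 := by
        linear_combination grd G ω 3 * hE2 - dg G ω y 3 * hE1 - ω 1 * hp - ω 2 * hq
      exact (mul_eq_zero.1 h5).resolve_right hω
    apply hnd y hy
    intro z hz
    have h6 := htan z hz
    rw [hes_dg]
    rw [Fin.sum_univ_four] at h6 ⊢
    have h7 : grd G ω 3 * (dg G ω y 0 * z 0 + dg G ω y 1 * z 1 + dg G ω y 2 * z 2 +
        dg G ω y 3 * z 3) = 0 := by
      linear_combination dg G ω y 3 * h6 + z 0 * hr + z 1 * hp + z 2 * hq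
    exact (mul_eq_zero.1 h7).resolve_left h3
  -- surjectivity
  have hsurj : ∀ v : Fin (1 + 1) → ℂ, ∃ y ∈ Tan (Ideal.span {G}) ω, TT G ω y = v := by
    set T' := (TT G ω).comp (Tan (Ideal.span {G}) ω).subtype with hT'
    have h8 := LinearMap.finrank_range_add_finrank_ker T'
    have h9 : Module.finrank ℂ (LinearMap.ker T') ≤ 1 := by
      have hωT : ω ∈ Tan (Ideal.span {G}) ω := by
        rw [tan_span h.zero]
        have := Pool.Agent.Y689.BD.euler1 (N := 3) h.hom ω
        rw [h.zero, mul_zero] at this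
        exact this
      have h14 : LinearMap.ker T' ≤ Submodule.span ℂ {(⟨ω, hωT⟩ : Tan (Ideal.span {G}) ω)} := by
        rintro ⟨y, hy⟩ hyk
        obtain ⟨c, hc⟩ := hker y hy (LinearMap.mem_ker.1 hyk)
        rw [Submodule.mem_span_singleton]
        exact ⟨c, Subtype.ext hc.symm⟩
      exact (Submodule.finrank_mono h14).trans
        ((finrank_span_le_card _).trans (by simp))
    have h10 : LinearMap.range T' = ⊤ := by
      apply Submodule.eq_top_of_finrank_eq
      rw [hT] at h8
      have h11 : Module.finrank ℂ (LinearMap.range T') ≤ Module.finrank ℂ (Fin (1 + 1) → ℂ) :=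
        Submodule.finrank_le _
      rw [Module.finrank_fin_fun] at h11 ⊢
      omega
    intro v
    obtain ⟨y, hy⟩ := LinearMap.range_eq_top.1 h10 v
    exact ⟨y, y.2, hy⟩
  have hfin : AlgebraicIndependent k (fun i : Fin (1 + 1) =>
      grd G ω (i.succ.castLE (by omega)) / grd G ω 3) := by
    apply algInd_of_der
    intro i
    obtain ⟨y, hy, hyv⟩ := hsurj (fun j => if j = i then 1 else 0)
    obtain ⟨D', hD', -⟩ := (Pool.Agent.Y179.BD.t_TD 3 k _ 1 _ ω _ s hg hT).2.2 y hy 0
    refine ⟨D', fun j => ?_⟩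
    have hdg : ∀ l, D' (grd G ω l) = dg G ω y l := by
      intro l
      have h12 := Pool.Agent.Y179.BD.der_eval D' (pderiv l G₀) ω
      rw [← pderiv_map, h.map] at h12
      rw [show grd G ω l = eval ω (pderiv l G) from rfl, h12]
      unfold dg
      refine Finset.sum_congr rfl fun m _ => ?_
      rw [hD' m]
      rfl
    have h13 := congrFun hyv j
    simp only [TT, LinearMap.coe_mk, AddHom.coe_mk] at h13
    rw [← h13, Derivation.leibniz_div, hdg, hdg]
    simp only [smul_eq_mul]
    rw [div_eq_mul_inv, inv_pow]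
    ring
  have he : (fun i : Fin (1 + 1) => grd G ω (i.succ.castLE (by omega)) / grd G ω 3) =
      ![(sixC G ω).p, (sixC G ω).q] := by
    funext i
    fin_cases i
    · rfl
    · rfl
  rw [← he]
  exact hfin

end Pool.Agent.H894.KC
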